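import Pool.Agent.Q85.CL.Defs
import Pool.Agent.W349.MF.OMEGA1
import Pool.Agent.W221.NS.Stm2

/-!
Project CL (helper85), job CL-REG+GOOD: the cut-off of a local solution.
-/

set_option autoImplicit false

open MeasureTheory Set Metric Filter Topology
open scoped ContDiff ENNReal

namespace Pool.Agent.Q95.CL

open H459R3.NS W221.NS Pool.Agent.Q85.CL

/-- A local solution as a solution in the sense of the third stage of helper221. -/
theorem osol_of {T E : ℝ} {O : Set V} {u : ℝ → V → V} {p : ℝ → V → ℝ} (h : LSl T E O u p)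
    (hE : 0 ≤ E) : OSol 1 T (√E) O u p where
  openO := h.openO
  smooth_u := h.smooth_u.mono (prod_mono le_rfl (subset_univ _))
  smooth_p := h.smooth_p.mono (prod_mono le_rfl (subset_univ _))
  divfree := h.divfree
  momentum := fun t ht x hx i => by
    rw [one_mul]
    exact h.momentum t ht x hx i
  en_int := h.en_int
  en := fun t ht => by
    rw [Real.sq_sqrt hE]
    exact h.en t ht

/-- The cut-off of a local solution. -/
theorem cut_exists {T E : ℝ} {O : Set V} {u : ℝ → V → V} {p : ℝ → V → ℝ} (h : LSl T E O u p)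
    (hE : 0 ≤ E) {a : V} {ρ : ℝ} (hρ : 0 < ρ) (hO : closedBall a ρ ⊆ O) :
    ∃ (ζ : V → ℝ) (κ : ℝ), 0 ≤ κ ∧ ContDiff ℝ ∞ ζ ∧ (∀ x ∈ closedBall a (7 / 8 * ρ), ζ x = 1) ∧
      LSol T κ (√E) (ball a (7 / 8 * ρ)) (fun t x => ζ x • u t x) (fun t x => ζ x * p t x) := by
  let f : ContDiffBump a := ⟨7 / 8 * ρ, ρ, by positivity, by linarith⟩
  have hf : ContDiff ℝ ∞ (f : V → ℝ) := f.contDiff
  have hc : HasCompactSupport (f : V → ℝ) := f.hasCompactSupport
  have hts : tsupport (f : V → ℝ) ⊆ O := by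
    rw [f.tsupport_eq]
    exact hO
  obtain ⟨B, hB0, hB⟩ := Pool.Agent.W349.MF.pd_bd hf hc
  have h1 : ∀ x ∈ closedBall a (7 / 8 * ρ), (f : V → ℝ) x = 1 := fun x hx =>
    f.one_of_mem_closedBall hx
  refine ⟨f, 2 * B * √E, by positivity, hf, h1, ?_⟩
  exact Pool.Agent.W349.MF.cut_sol (Real.sqrt_nonneg E) (osol_of h hE) hf hc hts
    (fun x => ⟨f.nonneg, f.le_one⟩) isOpen_ball
    ((ball_subset_ball (by linarith)).trans (ball_subset_closedBall.trans hO))
    (fun x hx => h1 x (ball_subset_closedBall hx)) hB0 hB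

section
variable {ζ : V → ℝ} {u : ℝ → V → V} {G : Set V}

theorem cut_ev (hG : IsOpen G) (h1 : ∀ x ∈ G, ζ x = 1) (t : ℝ) {x : V} (hx : x ∈ G) :
    (fun y => ζ y • u t y) =ᶠ[𝓝 x] u t := by
  filter_upwards [hG.mem_nhds hx] with z hz
  rw [h1 z hz, one_smul]

theorem gsq_cutG (hG : IsOpen G) (h1 : ∀ x ∈ G, ζ x = 1) (t : ℝ) {x : V} (hx : x ∈ G) :
    gsq (fun y => ζ y • u t y) x = gsq (u t) x := by
  unfold gsq
  refine Finset.sum_congr rfl fun i _ => Finset.sum_congr rfl fun j _ => ?_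
  have h2 : (fun y => (ζ y • u t y) i) =ᶠ[𝓝 x] fun y => u t y i := by
    filter_upwards [cut_ev hG h1 t hx] with z hz
    rw [hz]
  rw [Pool.Agent.W349.MF.pd_congr' h2]

/-- The mollified velocity does not see the cut-off. -/
theorem mol_cutG (h1 : ∀ x ∈ G, ζ x = 1) (t : ℝ) {ρ : ℝ} (hρ : 0 < ρ) {z : V}
    (hz : ball z ρ ⊆ G) : mol ρ (fun t x => ζ x • u t x) t z = mol ρ u t z := by
  funext i
  unfold mol
  apply integral_congr_ae
  filter_upwards with y
  by_cases hy : y ∈ ball (0 : V) 1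
  · have h2 : z + ρ • y ∈ G := by
      apply hz
      rw [mem_ball_zero_iff] at hy
      rw [mem_ball, dist_eq_norm, add_sub_cancel_left, norm_smul, Real.norm_eq_abs,
        abs_of_pos hρ]
      nlinarith
    rw [h1 _ h2, one_smul]
  · have h2 : th y = 0 := by
      unfold th
      have h3 : y ∉ Function.support (bmp.normed volume) := by
        rw [bmp.support_normed_eq]
        exact hy
      exact Function.notMem_support.1 h3
    rw [h2, zero_mul, zero_mul]

end

end Pool.Agent.Q95.CL
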