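import Pool.Agent.Q95.CL.Reg
import Pool.Agent.Q85.CL.Defs4

/-!
Project CL (helper85), job CL-FAR: the velocity of a solution in the whole space with bounded energy
and finite dissipation is bounded near infinity, up to the final time.
-/

set_option autoImplicit false

open MeasureTheory Set Metric Filter Topology
open scoped ContDiff ENNReal

namespace Pool.Agent.Q95.CL

open H459R3.NS W221.NS W221.NS.B Pool.Agent.Q85.CL
open Pool.Agent.TH305.LW (ms ms_eq frame_int mass_cont speed_num)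
open W382.ME (point A2_bd cd_slice gsq_cont int_ball)

/-- A solution in the whole space is a local solution on every ball. -/
theorem lsl_of {T E : ℝ} {u : ℝ → V → V} {p : ℝ → V → ℝ} (hu : WSl 1 T E u p) (x : V) (R : ℝ) :
    LSl T E (ball x R) u p where
  openO := isOpen_ball
  smooth_u := hu.smooth_u
  smooth_p := hu.smooth_p
  divfree := fun t ht y _ => hu.divfree t ht y
  momentum := fun t ht y _ i => by
    have := hu.momentum t ht y i
    rwa [one_mul] at this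
  en_int := fun t ht => (hu.en_int t ht).integrableOn
  en := fun t ht => by
    refine (setIntegral_le_integral (hu.en_int t ht) ?_).trans (hu.en t ht)
    exact Eventually.of_forall fun y => Finset.sum_nonneg fun _ _ => sq_nonneg _
  dis := hu.dis.mono_set (prod_mono le_rfl (subset_univ _))
  prs := by
    refine (hu.prs (‖x‖ + |R|)).mono_set (prod_mono le_rfl ?_)
    apply ball_subset_ball'
    rw [dist_zero_right]
    linarith [le_abs_self R]

/-- The dissipation near infinity is small. -/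
theorem tail {T E : ℝ} {u : ℝ → V → V} {p : ℝ → V → ℝ} (hu : WSl 1 T E u p) {b : ℝ} (hb : 0 < b) :
    ∃ ρ : ℝ, ∫ z in Ioo 0 T ×ˢ {y : V | ρ ≤ ‖y‖}, gsq (u z.1) z.2 ≤ b := by
  have hmeas : ∀ n : ℕ, MeasurableSet (Ioo 0 T ×ˢ {y : V | (n : ℝ) ≤ ‖y‖}) := fun n =>
    measurableSet_Ioo.prod (isClosed_le continuous_const continuous_norm).measurableSet
  have hanti : Antitone fun n : ℕ => Ioo 0 T ×ˢ {y : V | (n : ℝ) ≤ ‖y‖} := by
    intro m n hmn
    apply Set.prod_mono le_rfl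
    intro y hy
    have h1 : (m : ℝ) ≤ n := by exact_mod_cast hmn
    exact h1.trans hy
  have h := tendsto_setIntegral_of_antitone (f := fun z : ℝ × V => gsq (u z.1) z.2) hmeas hanti
    ⟨0, hu.dis.mono_set (prod_mono le_rfl (subset_univ _))⟩
  have h0 : ⋂ n : ℕ, Ioo 0 T ×ˢ {y : V | (n : ℝ) ≤ ‖y‖} = ∅ := by
    rw [eq_empty_iff_forall_notMem]
    rintro ⟨τ, y⟩ hz
    rw [mem_iInter] at hz
    obtain ⟨n, hn⟩ := exists_nat_gt ‖y‖
    have h1 : (n : ℝ) ≤ ‖y‖ := (hz n).2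
    linarith
  rw [h0, setIntegral_empty] at h
  obtain ⟨n, hn⟩ := (h.eventually (gt_mem_nhds hb)).exists
  exact ⟨n, hn.le⟩

theorem far : StmFar := by
  obtain ⟨εL, CL, hεL, hCL, hloc⟩ := p_local
  obtain ⟨CM, hCM, hmol⟩ := p_moll2
  intro T E u p hT hw T₁ hT₁ hT₁T
  have hE0 : 0 ≤ E :=
    (integral_nonneg fun y => Finset.sum_nonneg fun _ _ => sq_nonneg _).trans
      (hw.en T₁ ⟨hT₁, hT₁T⟩)
  obtain ⟨E', hE'd⟩ : ∃ E', E' = √E := ⟨_, rfl⟩
  have hE' : 0 ≤ E' := by rw [hE'd]; exact Real.sqrt_nonneg _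
  -- the radius
  obtain ⟨r, hr, -, c2, c3, c4⟩ := small_rad (N := 8) (A := CM * E') (r₁ := 1) (ρ := 1)
    (b := T₁ / 2) one_pos one_pos (by linarith)
  have hr2 : 0 < r ^ 2 := by positivity
  have hrN : r ^ 2 ≤ (8 * r) ^ 2 := pow_le_pow_left₀ hr.le (by linarith) 2
  have hMr := speed_num (C := CM) (E := E') hr
  obtain ⟨M, hM⟩ : ∃ M, M = CM * E' / √(r ^ 3) := ⟨_, rfl⟩
  rw [← hM] at hMr
  have hM0 : 0 ≤ M := by rw [hM]; positivity
  obtain ⟨δ, hδ0, hδ1, hδ2, hδ3⟩ : ∃ δ : ℝ, 0 < δ ∧ δ ≤ r ^ 2 / 32 ∧ δ ≤ r / 16 ∧ M * δ ≤ r / 16 := by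
    refine ⟨min (r ^ 2 / 32) (r / 16 / (M + 1)), by positivity, min_le_left _ _, ?_, ?_⟩
    · refine (min_le_right _ _).trans (div_le_self (by positivity) (by linarith))
    · calc M * min (r ^ 2 / 32) (r / 16 / (M + 1)) ≤ (M + 1) * (r / 16 / (M + 1)) := by
            apply mul_le_mul (by linarith) (min_le_right _ _) (by positivity) (by positivity)
        _ = r / 16 := by field_simp
  obtain ⟨Q, hQ⟩ : ∃ Q, Q = CL * (1 + √(2 * r ^ 2 * ((r ^ 3)⁻¹ * E' ^ 2 + 1536 * M ^ 2))) := ⟨_, rfl⟩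
  -- far away
  obtain ⟨ρ, hρ⟩ := tail hw (b := εL * r) (by positivity)
  refine ⟨Q / r + M, ρ + 1, ?_⟩
  intro t ht x hx
  have hu := lsl_of hw x 2
  have hO : closedBall x 1 ⊆ ball x 2 := closedBall_subset_ball (by norm_num)
  obtain ⟨ζ, κ, hκ, hζ, hζ1, hL⟩ := cut_exists hu hE0 one_pos hO
  rw [← hE'd] at hL
  obtain ⟨U, hU⟩ : ∃ U : ℝ → V → V, U = fun t x => ζ x • u t x := ⟨_, rfl⟩
  obtain ⟨P, hP⟩ : ∃ P : ℝ → V → ℝ, P = fun t x => ζ x * p t x := ⟨_, rfl⟩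
  rw [← hU, ← hP] at hL
  have hζo : ∀ y ∈ ball x (7 / 8 * 1), ζ y = 1 := fun y hy => hζ1 y (ball_subset_closedBall hy)
  have hUg : ∀ τ, ∀ y ∈ ball x (7 / 8 * 1), gsq (U τ) y = gsq (u τ) y := fun τ y hy => by
    rw [hU]
    exact gsq_cutG isOpen_ball hζo τ hy
  -- the speed
  obtain ⟨Lc, hgood⟩ := hmol T κ E' (ball x (7 / 8 * 1)) U P hκ hE' hL r hr
  rw [← hM] at hgood
  -- the final time
  obtain ⟨s, hts, hsδ, hsT⟩ : ∃ s, t < s ∧ s - δ < t ∧ s < T := by
    refine ⟨min ((t + T) / 2) (t + δ / 2), lt_min (by linarith [ht.2]) (by linarith), ?_, ?_⟩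
    · have := min_le_right ((t + T) / 2) (t + δ / 2)
      linarith
    · have := min_le_left ((t + T) / 2) (t + δ / 2)
      linarith [ht.2]
  have hα : 0 < s - r ^ 2 := by linarith [ht.1]
  obtain ⟨X, hX⟩ := p_flowx2 T M Lc _ (mol r U) hgood (s - r ^ 2) s hα (by linarith) hsT
  have hMb : ∀ t ∈ Ioo (s - r ^ 2) s, ∀ x, ‖mol r U t x‖ ≤ M := fun t ht x =>
    hgood.bd t ⟨hα.trans ht.1, ht.2.trans hsT⟩ x
  -- the position
  have hrough : ∀ τ ∈ Ioo (s - r ^ 2) s, ‖x - X τ x‖ ≤ 1 / 8 := by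
    intro τ hτ
    have h1 := W382.ME.speed hX hMb hτ x
    rw [hX.fin x] at h1
    refine h1.trans (le_trans ?_ c3)
    rw [← hMr]
    exact mul_le_mul_of_nonneg_left (by linarith [hτ.1]) hM0
  have hball : ∀ τ ∈ Ioo (s - r ^ 2) s, ball (X τ x) (8 * r) ⊆ ball x (1 / 2) := by
    intro τ hτ
    apply ball_subset_ball'
    rw [dist_comm, dist_eq_norm]
    have := hrough τ hτ
    linarith
  have htube : ∀ τ ∈ Ioo (s - r ^ 2) s, ball (X τ x) (8 * r) ⊆ ball x (7 / 8 * 1) := by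
    intro τ hτ
    exact (hball τ hτ).trans (ball_subset_ball (by norm_num))
  -- the dissipation along the path
  have hXc : ContinuousOn (fun τ => X τ x) (Icc (s - r ^ 2) s) :=
    hX.cont.comp (f := fun τ : ℝ => (τ, x)) (by fun_prop) (fun τ hτ => ⟨hτ, mem_univ _⟩)
  have hms : ms U r (fun τ => X τ x) (s - r ^ 2) s ≤ εL := by
    unfold ms
    rw [intervalIntegral.integral_of_le (by linarith), integral_Ioc_eq_integral_Ioo]
    have i1 : IntegrableOn (fun τ => B2 (X τ x) (8 * r) (U τ)) (Ioo (s - r ^ 2) s) :=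
      ((mass_cont hL.smooth_u hα hsT (by linarith) hXc (8 * r)).integrableOn_compact
        isCompact_Icc).mono_set Ioo_subset_Icc_self
    have i2 : IntegrableOn (fun τ => B2 x (1 / 2) (u τ)) (Ioo (s - r ^ 2) s) :=
      ((fix_cont hu.smooth_u hα hsT (by linarith) x _).integrableOn_compact
        isCompact_Icc).mono_set Ioo_subset_Icc_self
    have h1 : ∫ τ in Ioo (s - r ^ 2) s, B2 (X τ x) (8 * r) (U τ)
        ≤ ∫ τ in Ioo (s - r ^ 2) s, B2 x (1 / 2) (u τ) := by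
      refine setIntegral_mono_on i1 i2 measurableSet_Ioo fun τ hτ => ?_
      have hcd : ContDiff ℝ ∞ (u τ) := cd_slice hu.smooth_u ⟨hα.trans hτ.1, hτ.2.trans hsT⟩
      unfold B2
      rw [setIntegral_congr_fun measurableSet_ball fun y hy => hUg τ y (htube τ hτ hy)]
      exact setIntegral_mono_set (int_ball (gsq_cont hcd) _ _)
        (Eventually.of_forall fun y => W382.ME.gsq_nonneg _ y) (hball τ hτ).eventuallyLE
    have hsub : Ioo (s - r ^ 2) s ×ˢ ball x (1 / 2) ⊆ Ioo 0 T ×ˢ {y : V | ρ ≤ ‖y‖} := by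
      apply Set.prod_mono (Ioo_subset_Ioo hα.le hsT.le)
      intro y hy
      rw [mem_ball, dist_comm, dist_eq_norm] at hy
      have h2 : ‖x‖ ≤ ‖x - y‖ + ‖y‖ := by
        calc ‖x‖ = ‖(x - y) + y‖ := by congr 1; abel
          _ ≤ _ := norm_add_le _ _
      show ρ ≤ ‖y‖
      linarith
    have h2 : ∫ τ in Ioo (s - r ^ 2) s, B2 x (1 / 2) (u τ)
        = ∫ z in Ioo (s - r ^ 2) s ×ˢ ball x (1 / 2), gsq (u z.1) z.2 :=
      (setIntegral_prod (μ := volume) (ν := volume) (fun z : ℝ × V => gsq (u z.1) z.2)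
        (hw.dis.mono_set (prod_mono (Ioo_subset_Ioo hα.le hsT.le) (subset_univ _)))).symm
    have h3 : ∫ z in Ioo (s - r ^ 2) s ×ˢ ball x (1 / 2), gsq (u z.1) z.2
        ≤ ∫ z in Ioo 0 T ×ˢ {y : V | ρ ≤ ‖y‖}, gsq (u z.1) z.2 :=
      setIntegral_mono_set (hw.dis.mono_set (prod_mono le_rfl (subset_univ _)))
        (Eventually.of_forall fun z => W382.ME.gsq_nonneg _ _) hsub.eventuallyLE
    rw [inv_mul_le_iff₀ hr]
    linarith
  -- the local regularity theorem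
  have hL2 := p_frame2 T κ E' (ball x (7 / 8 * 1)) U P hL r s hr (by linarith) hsT
    (fun τ => X τ x) (hX.smooth x) (fun τ hτ => hX.ode x τ hτ) htube
  have hInt := frame_int (r := r) (s := s) hL.smooth_u hr hα le_rfl le_rfl hsT hXc
  have hmse := ms_eq (r := r) (s := s) hL.smooth_u hr hα hsT (fun τ => X τ x)
  have hl := hloc _ _ hL2 hInt (by rw [hmse]; exact hms)
  have htime : ∀ t ∈ Ioo (-1 : ℝ) 0, s + r ^ 2 * t ∈ Ioo (s - r ^ 2) s := by
    intro t ht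
    have a1 : r ^ 2 * (-1) < r ^ 2 * t := (mul_lt_mul_iff_right₀ hr2).2 ht.1
    have a2 : r ^ 2 * t < r ^ 2 * 0 := (mul_lt_mul_iff_right₀ hr2).2 ht.2
    constructor <;> linarith
  have hT' : ∀ t ∈ Ioo (-1 : ℝ) 0, s + r ^ 2 * t ∈ Ioo 0 T := fun t ht =>
    ⟨hα.trans (htime t ht).1, (htime t ht).2.trans hsT⟩
  have hl' : ∀ t ∈ Ioo (-1 / 16 : ℝ) 0, ∀ w ∈ ball (0 : V) (1 / 4), ∀ i,
      |frv r s (fun τ => X τ x) U t w i| ≤ Q := by
    intro t ht w hw i
    refine (hl t ht w hw i).trans ?_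
    have ht' : t ∈ Ioo (-1 : ℝ) 0 := ⟨by linarith [ht.1], ht.2⟩
    have hA2 : A2 0 4 (frv r s (fun τ => X τ x) U t)
        ≤ 2 * r ^ 2 * ((r ^ 3)⁻¹ * E' ^ 2 + 1536 * M ^ 2) := by
      refine A2_bd (cd_slice hL.smooth_u (hT' t ht')) (hL.en_int _ (hT' t ht'))
        (hL.en _ (hT' t ht')) hr
        (X (s + r ^ 2 * t) x) (fun i => deriv (fun τ => X τ x i) (s + r ^ 2 * t)) ?_
      intro i
      have hd : HasDerivAt (fun τ => X τ x i) (mol r U (s + r ^ 2 * t) (X (s + r ^ 2 * t) x) i)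
          (s + r ^ 2 * t) := (hasDerivAt_pi.1 (hX.ode x _ (htime t ht'))) i
      rw [hd.deriv]
      exact (norm_le_pi_norm (mol r U _ (X _ x)) i).trans (hMb _ (htime t ht') _)
    rw [hQ]
    gcongr
  have hpt := point (CL := Q) hr hM0 hX hMb hδ1 hδ2 hδ3 (x := x) (z := x) (y := x) (t := t) hsδ
    hts (mem_ball_self (by positivity)) (mem_ball_self hδ0) hl'
  have hUx : U t x = u t x := by
    rw [hU]
    show ζ x • u t x = u t x
    rw [hζ1 x (mem_closedBall_self (by norm_num)), one_smul]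
  rwa [hUx] at hpt

end Pool.Agent.Q95.CL
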